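import Mathlib
import Pool.Agent.FourSq.First

set_option autoImplicit false

namespace Pool.Agent.Results.MP_dfd283_nt.Disproof

/-- The set of the seven triples of the problem. -/
def T : Set (ℕ × ℕ × ℕ) :=
  {(1, 8, 20), (3, 5, 15), (6, 14, 4), (7, 29, 5), (18, 38, 18), (39, 81, 51), (42, 98, 14)}

/-- The triple `(42, 98, 14)` belongs to `T` and `n = 56271` has no representation
`x² + y² + z² + w²` in natural numbers with `x y (42 x² + 98 y² + 14 z²)` a square. Hence the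
assertion of the problem is false. -/
theorem result :
    ((42, 98, 14) ∈ T ∧ ∀ x y z w : ℕ, 56271 = x ^ 2 + y ^ 2 + z ^ 2 + w ^ 2 →
      ¬ IsSquare (x * y * (42 * x ^ 2 + 98 * y ^ 2 + 14 * z ^ 2))) ∧
    ¬ ∀ c ∈ T, ∀ n : ℕ, ∃ x y z w : ℕ, n = x ^ 2 + y ^ 2 + z ^ 2 + w ^ 2 ∧
      IsSquare (x * y * (c.1 * x ^ 2 + c.2.1 * y ^ 2 + c.2.2 * z ^ 2)) := by
  have hT : (42, 98, 14) ∈ T := by simp [T]
  refine ⟨⟨hT, fun x y z w h => Pool.Agent.FourSq.first x y z w h.symm⟩, ?_⟩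
  intro H
  obtain ⟨x, y, z, w, h1, h2⟩ := H _ hT 56271
  exact Pool.Agent.FourSq.first x y z w h1.symm h2

end Pool.Agent.Results.MP_dfd283_nt.Disproof
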