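import Mathlib
import Pool.Agent.FourSq.Second

set_option autoImplicit false

namespace Pool.Agent.Results.MP_dfd283_nt.TripleEighteen

/-- The set of the seven triples of the problem. -/
def T : Set (ℕ × ℕ × ℕ) :=
  {(1, 8, 20), (3, 5, 15), (6, 14, 4), (7, 29, 5), (18, 38, 18), (39, 81, 51), (42, 98, 14)}

/-- The triple `(18, 38, 18)` belongs to `T` and `n = 822335` has no representation
`x² + y² + z² + w²` in natural numbers with `x y (18 x² + 38 y² + 18 z²)` a square. -/
theorem result :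
    (18, 38, 18) ∈ T ∧ ∀ x y z w : ℕ, 822335 = x ^ 2 + y ^ 2 + z ^ 2 + w ^ 2 →
      ¬ IsSquare (x * y * (18 * x ^ 2 + 38 * y ^ 2 + 18 * z ^ 2)) :=
  ⟨by simp [T], fun x y z w h => Pool.Agent.FourSq.second x y z w h.symm⟩

end Pool.Agent.Results.MP_dfd283_nt.TripleEighteen
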